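import Pool.Agent.X193.AHC.Supports
import Pool.Agent.H330.Ramsey

/-!
Limits along ultrafilters, up to permutations of `ℕ`, and equality patterns.
-/

namespace Pool.Agent.X193.AHC

open Filter

/-- A finite partial injection of `ℕ` extends to a permutation. -/
theorem perm_match {J : Type} (F : Finset J) (t T : J → ℕ)
    (h : ∀ j ∈ F, ∀ j' ∈ F, (T j = T j' ↔ t j = t j')) :
    ∃ σ : Equiv.Perm ℕ, ∀ j ∈ F, T j = σ (t j) := by
  classical
  let N := F.sup T + 1
  have hN : ∀ j ∈ F, T j < N := fun j hj => Nat.lt_succ_of_le (Finset.le_sup (f := T) hj)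
  let l : ℕ → ℕ := fun n => if hn : ∃ j ∈ F, t j = n then T hn.choose else n + N
  have hl1 : ∀ j ∈ F, l (t j) = T j := by
    intro j hj
    have hn : ∃ j' ∈ F, t j' = t j := ⟨j, hj, rfl⟩
    have h1 : l (t j) = T hn.choose := dif_pos hn
    rw [h1]
    exact (h _ hn.choose_spec.1 _ hj).2 hn.choose_spec.2
  have hl2 : ∀ n, (¬ ∃ j ∈ F, t j = n) → l n = n + N := fun n hn => dif_neg hn
  have hinj : Function.Injective l := by
    intro a b hab
    by_cases ha : ∃ j ∈ F, t j = a <;> by_cases hb : ∃ j ∈ F, t j = b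
    · obtain ⟨j, hj, rfl⟩ := ha
      obtain ⟨j', hj', rfl⟩ := hb
      rw [hl1 j hj, hl1 j' hj'] at hab
      exact (h _ hj _ hj').1 hab
    · obtain ⟨j, hj, rfl⟩ := ha
      rw [hl1 j hj, hl2 b hb] at hab
      have := hN j hj
      omega
    · obtain ⟨j, hj, rfl⟩ := hb
      rw [hl1 j hj, hl2 a ha] at hab
      have := hN j hj
      omega
    · rw [hl2 a ha, hl2 b hb] at hab
      omega
  obtain ⟨σ, hσ⟩ := perm_ext l hinj (F.image t)
  exact ⟨σ, fun j hj => by rw [hσ _ (Finset.mem_image_of_mem t hj), hl1 j hj]⟩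

/-- Limits of families of maps into `ℕ` along an ultrafilter, up to permutations. -/
theorem lim {S J : Type} [Countable J] (U : Ultrafilter S) (t : S → J → ℕ) :
    ∃ T : J → ℕ, ∀ F : Finset J, ∀ᶠ s in (U : Filter S), ∃ σ : Equiv.Perm ℕ,
      ∀ j ∈ F, T j = σ (t s j) := by
  classical
  let r : Setoid J :=
    { r := fun j j' => ∀ᶠ s in (U : Filter S), t s j = t s j'
      iseqv := ⟨fun j => Eventually.of_forall fun _ => rfl, fun h => h.mono fun _ h => h.symm,
        fun h h' => (h.and h').mono fun _ h => h.1.trans h.2⟩ }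
  obtain ⟨ι, hι⟩ := exists_injective_nat (Quotient r)
  refine ⟨fun j => ι (Quotient.mk r j), fun F => ?_⟩
  have h1 : ∀ j ∈ F, ∀ j' ∈ F, ∀ᶠ s in (U : Filter S),
      (ι (Quotient.mk r j) = ι (Quotient.mk r j') ↔ t s j = t s j') := by
    intro j _ j' _
    by_cases h : ∀ᶠ s in (U : Filter S), t s j = t s j'
    · refine h.mono fun s hs => ?_
      have h3 : Quotient.mk r j = Quotient.mk r j' := Quotient.sound h
      rw [h3]
      exact ⟨fun _ => hs, fun _ => rfl⟩
    · have h2 : ∀ᶠ s in (U : Filter S), ¬ t s j = t s j' := Ultrafilter.eventually_not.2 h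
      refine h2.mono fun s hs => ?_
      exact ⟨fun h3 => absurd (Quotient.exact (hι h3)) h, fun h3 => absurd h3 hs⟩
  have h2 : ∀ᶠ s in (U : Filter S), ∀ j ∈ F, ∀ j' ∈ F,
      (ι (Quotient.mk r j) = ι (Quotient.mk r j') ↔ t s j = t s j') := by
    rw [Filter.eventually_all_finset]
    intro j hj
    rw [Filter.eventually_all_finset]
    intro j' hj'
    exact h1 j hj j' hj'
  exact h2.mono fun s hs => perm_match F (t s) _ hs

/-- The map which fixes `0, …, M - 1` and is `e` elsewhere. -/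
def fixM (M : ℕ) (e : ℕ → ℕ) (n : ℕ) : ℕ := if n < M then n else e n

theorem fixM_lt {M : ℕ} {e : ℕ → ℕ} {n : ℕ} (h : n < M) : fixM M e n = n := if_pos h

theorem fixM_ge {M : ℕ} {e : ℕ → ℕ} {n : ℕ} (h : M ≤ n) : fixM M e n = e n := if_neg (by omega)

theorem fixM_inj {M : ℕ} {e : ℕ → ℕ} (he : ∀ a b, M ≤ a → M ≤ b → e a = e b → a = b)
    (heM : ∀ n, M ≤ n → M ≤ e n) : Function.Injective (fixM M e) := by
  intro a b hab
  by_cases ha : a < M <;> by_cases hb : b < M
  · rwa [fixM_lt ha, fixM_lt hb] at hab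
  · rw [fixM_lt ha, fixM_ge (by omega)] at hab
    have := heM b (by omega)
    omega
  · rw [fixM_lt hb, fixM_ge (by omega)] at hab
    have := heM a (by omega)
    omega
  · rw [fixM_ge (by omega), fixM_ge (by omega)] at hab
    exact he a b (by omega) (by omega) hab

/-- positions: fixed points and places in an increasing sequence -/
def val {M N : ℕ} (x : Fin N → ℕ) : Fin M ⊕ Fin N → ℕ := Sum.elim (fun i => (i : ℕ)) x

/-- The equality pattern. -/
theorem pattern {I : Type} [Finite I] (M N k : ℕ) (f : (I → ℕ) → ℕ) :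
    ∃ e : ℕ → ℕ, StrictMono e ∧ (∀ n, M ≤ e n ∧ k < e n) ∧
      ∃ c : (I → Fin M ⊕ Fin N) → (I → Fin M ⊕ Fin N) → Prop,
        ∀ (P : Finset ℕ) (hP : P.card = N) (p q : I → Fin M ⊕ Fin N),
          (f (fun i => val (fun j => e (P.orderEmbOfFin hP j)) (p i)) =
            f (fun i => val (fun j => e (P.orderEmbOfFin hP j)) (q i)) ↔ c p q) := by
  classical
  let col : Finset ℕ → ((I → Fin M ⊕ Fin N) → (I → Fin M ⊕ Fin N) → Prop) := fun s p q =>
    ∃ hs : s.card = N,
      f (fun i => val (fun j => s.orderEmbOfFin hs j + (M + k + 1)) (p i)) =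
        f (fun i => val (fun j => s.orderEmbOfFin hs j + (M + k + 1)) (q i))
  obtain ⟨H, c, hH, hc⟩ := Pool.Agent.H330.infinite_ramsey N col
  have : Infinite H := hH.to_subtype
  let o : ℕ ↪o ℕ := Nat.orderEmbeddingOfSet H
  have hoH : ∀ n, o n ∈ H := fun n => Nat.orderEmbeddingOfSet_range H ▸ Set.mem_range_self n
  refine ⟨fun n => o n + (M + k + 1), fun a b hab => ?_, fun n => ⟨by simp only []; omega, by simp only []; omega⟩, c, ?_⟩
  · have := o.strictMono hab
    simp only []
    omega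
  · intro P hP p q
    have hs : (P.map o.toEmbedding).card = N := by rw [Finset.card_map, hP]
    have h1 := hc (P.map o.toEmbedding) hs (by
      intro x hx
      rw [Finset.mem_coe, Finset.mem_map] at hx
      obtain ⟨y, -, rfl⟩ := hx
      exact hoH y)
    have h2 : ∀ j, (P.map o.toEmbedding).orderEmbOfFin hs j = o (P.orderEmbOfFin hP j) := by
      have h3 := Finset.orderEmbOfFin_unique hs (f := fun j => o (P.orderEmbOfFin hP j))
        (fun j => Finset.mem_map_of_mem o.toEmbedding (P.orderEmbOfFin_mem hP j))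
        (o.strictMono.comp (P.orderEmbOfFin hP).strictMono)
      intro j
      exact (congrFun h3 j).symm
    rw [← h1]
    simp only [col]
    constructor
    · intro h
      refine ⟨hs, ?_⟩
      simp only [h2]
      exact h
    · rintro ⟨_, h⟩
      simp only [h2] at h
      exact h

/-- Equal patterns give equal kernels. -/
theorem same_kernel {I : Type} [Finite I] {M N : ℕ} (hN : 2 * Nat.card I ≤ N)
    {f f' : (I → ℕ) → ℕ} {e e' : ℕ → ℕ}
    {c : (I → Fin M ⊕ Fin N) → (I → Fin M ⊕ Fin N) → Prop}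
    (hc : ∀ (P : Finset ℕ) (hP : P.card = N) (p q : I → Fin M ⊕ Fin N),
          (f (fun i => val (fun j => e (P.orderEmbOfFin hP j)) (p i)) =
            f (fun i => val (fun j => e (P.orderEmbOfFin hP j)) (q i)) ↔ c p q))
    (hc' : ∀ (P : Finset ℕ) (hP : P.card = N) (p q : I → Fin M ⊕ Fin N),
          (f' (fun i => val (fun j => e' (P.orderEmbOfFin hP j)) (p i)) =
            f' (fun i => val (fun j => e' (P.orderEmbOfFin hP j)) (q i)) ↔ c p q))
    (a b : I → ℕ) :
    f (fixM M e ∘ a) = f (fixM M e ∘ b) ↔ f' (fixM M e' ∘ a) = f' (fixM M e' ∘ b) := by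
  classical
  have := Fintype.ofFinite I
  let Q : Finset ℕ := Finset.univ.image a ∪ Finset.univ.image b
  have hQ : Q.card ≤ N := by
    refine le_trans (Finset.card_union_le _ _) ?_
    have h1 := Finset.card_image_le (s := (Finset.univ : Finset I)) (f := a)
    have h2 := Finset.card_image_le (s := (Finset.univ : Finset I)) (f := b)
    rw [Finset.card_univ, ← Nat.card_eq_fintype_card] at h1 h2
    omega
  obtain ⟨P, hQP, hP⟩ := Infinite.exists_superset_card_eq Q N hQ
  have haP : ∀ i, a i ∈ P := fun i =>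
    hQP (Finset.mem_union_left _ (Finset.mem_image_of_mem a (Finset.mem_univ i)))
  have hbP : ∀ i, b i ∈ P := fun i =>
    hQP (Finset.mem_union_right _ (Finset.mem_image_of_mem b (Finset.mem_univ i)))
  let pos : ∀ x : ℕ, x ∈ P → Fin M ⊕ Fin N := fun x hx =>
    if h : x < M then Sum.inl ⟨x, h⟩ else Sum.inr ((P.orderIsoOfFin hP).symm ⟨x, hx⟩)
  have hpos : ∀ (e : ℕ → ℕ) (x : ℕ) (hx : x ∈ P),
      val (fun j => e (P.orderEmbOfFin hP j)) (pos x hx) = fixM M e x := by
    intro e x hx
    by_cases h : x < M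
    · rw [fixM_lt h]
      have h1 : pos x hx = Sum.inl ⟨x, h⟩ := dif_pos h
      rw [h1]
      rfl
    · rw [fixM_ge (by omega)]
      have h1 : pos x hx = Sum.inr ((P.orderIsoOfFin hP).symm ⟨x, hx⟩) := dif_neg h
      rw [h1]
      change e (P.orderEmbOfFin hP ((P.orderIsoOfFin hP).symm ⟨x, hx⟩)) = e x
      congr 1
      have h2 : ((P.orderIsoOfFin hP ((P.orderIsoOfFin hP).symm ⟨x, hx⟩) : P) : ℕ) = x := by
        rw [OrderIso.apply_symm_apply]
      exact h2
  have h1 := hc P hP (fun i => pos (a i) (haP i)) (fun i => pos (b i) (hbP i))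
  have h2 := hc' P hP (fun i => pos (a i) (haP i)) (fun i => pos (b i) (hbP i))
  simp only [hpos] at h1 h2
  exact h1.trans h2.symm

end Pool.Agent.X193.AHC
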