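import Pool.Agent.X193.AHC.Limit

/-!
Continuity of isomorphisms, at a fixed finite arity `I`.
-/

namespace Pool.Agent.X193.AHC

open Filter

/-- A closed set `E` of `I`-ary operations of `ℕ`, stable under composition with injections on
both sides, and a map `X` to the `I`-ary operations of `Y` which respects these compositions. -/
structure Act {I Y : Type} (θ : (ℕ → ℕ) → Y → Y) (E : Set ((I → ℕ) → ℕ))
    (X : ((I → ℕ) → ℕ) → (I → Y) → Y) : Prop where
  hcomp : ∀ f g : ℕ → ℕ, Function.Injective f → Function.Injective g → θ (f ∘ g) = θ f ∘ θ g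
  hid : θ id = id
  hsupp : ∀ z, ∃ S, Supp θ S z
  left_mem : ∀ l : ℕ → ℕ, Function.Injective l → ∀ f ∈ E, (fun a => l (f a)) ∈ E
  left_eq : ∀ l : ℕ → ℕ, Function.Injective l → ∀ f ∈ E, ∀ y : I → Y,
    X (fun a => l (f a)) y = θ l (X f y)
  right_mem : ∀ c : ℕ → ℕ, Function.Injective c → ∀ f ∈ E, (fun a => f (c ∘ a)) ∈ E
  right_eq : ∀ c : ℕ → ℕ, Function.Injective c → ∀ f ∈ E, ∀ y : I → Y,
    X (fun a => f (c ∘ a)) y = X f (fun i => θ c (y i))
  closed : ∀ g : (I → ℕ) → ℕ, (∀ W : Finset (I → ℕ), ∃ f ∈ E, ∀ a ∈ W, g a = f a) → g ∈ E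

section

variable {I Y : Type} [Finite I] {θ : (ℕ → ℕ) → Y → Y} {E : Set ((I → ℕ) → ℕ)}
  {X : ((I → ℕ) → ℕ) → (I → Y) → Y}

/-- factor through a map with the same kernel; even values are used on the image, odd ones
outside -/
theorem factor {A : Type} (κ φ : A → ℕ) (h : ∀ a b, φ a = φ b ↔ κ a = κ b)
    (hev : ∀ a, φ a % 2 = 0) :
    ∃ l : ℕ → ℕ, Function.Injective l ∧ (∀ a, l (κ a) = φ a) ∧
      ∀ n, l n % 2 = 0 → ∃ a, κ a = n := by
  classical
  let l : ℕ → ℕ := fun n => if hn : ∃ a, κ a = n then φ hn.choose else 2 * n + 1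
  have h1 : ∀ a, l (κ a) = φ a := by
    intro a
    have hn : ∃ b, κ b = κ a := ⟨a, rfl⟩
    have h2 : l (κ a) = φ hn.choose := dif_pos hn
    rw [h2]
    exact (h _ _).2 hn.choose_spec
  have h2 : ∀ n, (¬ ∃ a, κ a = n) → l n = 2 * n + 1 := fun n hn => dif_neg hn
  refine ⟨l, ?_, h1, ?_⟩
  · intro m n hmn
    by_cases hm : ∃ a, κ a = m <;> by_cases hn : ∃ a, κ a = n
    · obtain ⟨a, rfl⟩ := hm
      obtain ⟨b, rfl⟩ := hn
      rw [h1, h1] at hmn
      exact (h a b).1 hmn
    · obtain ⟨a, rfl⟩ := hm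
      rw [h1, h2 n hn] at hmn
      have := hev a
      omega
    · obtain ⟨a, rfl⟩ := hn
      rw [h1, h2 m hm] at hmn
      have := hev a
      omega
    · rw [h2 m hm, h2 n hn] at hmn
      omega
  · intro n hn
    by_contra hne
    rw [h2 n hne] at hn
    omega

theorem cont_even (h : Act θ E X) {f : (I → ℕ) → ℕ} (hf : f ∈ E) (y : I → Y)
    (F : ℕ → (I → ℕ) → ℕ) (hF : ∀ k, F k ∈ E) (hag : ∀ k (a : I → ℕ), (∀ i, a i ≤ k) → F k a = f a)
    (hev : ∀ k a, F k a % 2 = 0) : ∃ k, X (F k) y = X f y := by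
  classical
  have := Fintype.ofFinite I
  by_contra hcon
  push Not at hcon
  -- a common support `0, …, M - 1` of the `y i`
  obtain ⟨M, hM⟩ : ∃ M, ∀ i, Supp θ (Finset.range M) (y i) := by
    choose S hS using fun i => h.hsupp (y i)
    refine ⟨(Finset.univ.biUnion S).sup id + 1, fun i => (hS i).mono fun x hx => ?_⟩
    have h1 : x ∈ Finset.univ.biUnion S := Finset.mem_biUnion.2 ⟨i, Finset.mem_univ i, hx⟩
    exact Finset.mem_range.2 (Nat.lt_succ_of_le (Finset.le_sup (f := id) h1))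
  have hfix : ∀ c : ℕ → ℕ, Function.Injective c → (∀ x < M, c x = x) → ∀ i, θ c (y i) = y i := by
    intro c hc hcx i
    have h1 := hM i c id hc Function.injective_id (fun x hx => hcx x (Finset.mem_range.1 hx))
    rw [h.hid] at h1
    exact h1
  have hfix' : ∀ c : ℕ → ℕ, Function.Injective c → (∀ x < M, c x = x) → ∀ g ∈ E,
      X (fun a => g (c ∘ a)) y = X g y := by
    intro c hc hcx g hg
    rw [h.right_eq c hc g hg]
    congr 1
    funext i
    exact hfix c hc hcx i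
  -- the patterns
  let N := 2 * Nat.card I
  choose e hemono hebig col hcol using fun k => pattern (I := I) M N k (F k)
  have : Finite ((I → Fin M ⊕ Fin N) → (I → Fin M ⊕ Fin N) → Prop) := inferInstance
  obtain ⟨c0, hc0⟩ : ∃ c, (col ⁻¹' {c}).Infinite := by
    obtain ⟨c, hc⟩ := Finite.exists_infinite_fiber col
    exact ⟨c, Set.infinite_coe_iff.1 hc⟩
  obtain ⟨k0, hk0⟩ := hc0.nonempty
  have hk0 : col k0 = c0 := hk0
  let κ : (I → ℕ) → ℕ := fun a => F k0 (fixM M (e k0) ∘ a)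
  let z := X κ y
  have hd : ∀ k, Function.Injective (fixM M (e k)) := fun k =>
    fixM_inj (fun a b _ _ hab => (hemono k).injective hab) (fun n _ => (hebig k n).1)
  have hκ : κ ∈ E := h.right_mem _ (hd k0) _ (hF k0)
  have hfac : ∀ k, col k = c0 → ∃ l : ℕ → ℕ, Function.Injective l ∧
      (∀ a, l (κ a) = F k (fixM M (e k) ∘ a)) ∧ ∀ n, l n % 2 = 0 → ∃ a, κ a = n := by
    intro k hk
    refine factor κ (fun a => F k (fixM M (e k) ∘ a)) (fun a b => ?_) (fun a => hev k _)
    have hc1 := hcol k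
    have hc2 := hcol k0
    rw [hk] at hc1
    rw [hk0] at hc2
    exact same_kernel (le_refl _) hc1 hc2 a b
  choose! l hlinj hlκ _ using hfac
  have hlz : ∀ k, col k = c0 → θ (l k) z = X (F k) y := by
    intro k hk
    have h1 := h.left_eq (l k) (hlinj k hk) κ hκ y
    rw [← h1]
    have h2 : (fun a => l k (κ a)) = fun a => F k (fixM M (e k) ∘ a) := funext (hlκ k hk)
    rw [h2]
    exact hfix' _ (hd k) (fun x hx => fixM_lt hx) _ (hF k)
  -- the two halves
  let μ : ℕ → ℕ := fixM M (fun n => M + 2 * (n - M))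
  let ν : ℕ → ℕ := fixM M (fun n => M + 2 * (n - M) + 1)
  let δ : ℕ → ℕ := fixM M (fun n => 2 * n + 1)
  have hμ : Function.Injective μ := fixM_inj (fun a b _ _ hab => by omega) (fun n _ => by omega)
  have hν : Function.Injective ν := fixM_inj (fun a b _ _ hab => by omega) (fun n _ => by omega)
  have hδ : Function.Injective δ := fixM_inj (fun a b _ _ hab => by omega) (fun n _ => by omega)
  let c : ℕ → ℕ → ℕ := fun k x => if x < M then x else
    if (x - M) % 2 = 0 then (if M + (x - M) / 2 ≤ k then M + (x - M) / 2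
      else e k (2 * (M + (x - M) / 2))) else e k (2 * (M + (x - M) / 2) + 1)
  have hc1 : ∀ k x, x < M → c k x = x := fun k x hx => if_pos hx
  have hc2 : ∀ k n, M ≤ n → n ≤ k → c k (M + 2 * (n - M)) = n := by
    intro k n hn hnk
    change (if M + 2 * (n - M) < M then M + 2 * (n - M) else _) = _
    rw [if_neg (by omega), if_pos (by omega), if_pos (by omega)]
    omega
  have hc3 : ∀ k n, M ≤ n → k < n → c k (M + 2 * (n - M)) = e k (2 * n) := by
    intro k n hn hnk
    change (if M + 2 * (n - M) < M then M + 2 * (n - M) else _) = _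
    rw [if_neg (by omega), if_pos (by omega), if_neg (by omega)]
    congr 1
    omega
  have hc4 : ∀ k n, M ≤ n → c k (M + 2 * (n - M) + 1) = e k (2 * n + 1) := by
    intro k n hn
    change (if M + 2 * (n - M) + 1 < M then M + 2 * (n - M) + 1 else _) = _
    rw [if_neg (by omega), if_neg (by omega)]
    congr 1
    omega
  have hcases : ∀ k x, x < M ∨ (∃ n, M ≤ n ∧ n ≤ k ∧ x = M + 2 * (n - M)) ∨
      (∃ n, M ≤ n ∧ k < n ∧ x = M + 2 * (n - M)) ∨ (∃ n, M ≤ n ∧ x = M + 2 * (n - M) + 1) := by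
    intro k x
    by_cases h1 : x < M
    · exact Or.inl h1
    · by_cases h2 : (x - M) % 2 = 0
      · by_cases h3 : M + (x - M) / 2 ≤ k
        · exact Or.inr (Or.inl ⟨M + (x - M) / 2, by omega, h3, by omega⟩)
        · exact Or.inr (Or.inr (Or.inl ⟨M + (x - M) / 2, by omega, by omega, by omega⟩))
      · exact Or.inr (Or.inr (Or.inr ⟨M + (x - M) / 2, by omega, by omega⟩))
  have hcinj : ∀ k, Function.Injective (c k) := by
    intro k x x' hxx
    have hb := hebig k
    rcases hcases k x with h1 | ⟨n, h1, h2, rfl⟩ | ⟨n, h1, h2, rfl⟩ | ⟨n, h1, rfl⟩ <;>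
    rcases hcases k x' with h3 | ⟨n', h3, h4, rfl⟩ | ⟨n', h3, h4, rfl⟩ | ⟨n', h3, rfl⟩
    · rwa [hc1 k x h1, hc1 k x' h3] at hxx
    · rw [hc1 k x h1, hc2 k n' h3 h4] at hxx; omega
    · rw [hc1 k x h1, hc3 k n' h3 h4] at hxx; have := (hb (2 * n')).1; omega
    · rw [hc1 k x h1, hc4 k n' h3] at hxx; have := (hb (2 * n' + 1)).1; omega
    · rw [hc1 k x' h3, hc2 k n h1 h2] at hxx; omega
    · rw [hc2 k n h1 h2, hc2 k n' h3 h4] at hxx; omega
    · rw [hc2 k n h1 h2, hc3 k n' h3 h4] at hxx; have := (hb (2 * n')).2; omega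
    · rw [hc2 k n h1 h2, hc4 k n' h3] at hxx; have := (hb (2 * n' + 1)).2; omega
    · rw [hc1 k x' h3, hc3 k n h1 h2] at hxx; have := (hb (2 * n)).1; omega
    · rw [hc3 k n h1 h2, hc2 k n' h3 h4] at hxx; have := (hb (2 * n)).2; omega
    · rw [hc3 k n h1 h2, hc3 k n' h3 h4] at hxx
      have := (hemono k).injective hxx
      omega
    · rw [hc3 k n h1 h2, hc4 k n' h3] at hxx
      have := (hemono k).injective hxx
      omega
    · rw [hc1 k x' h3, hc4 k n h1] at hxx; have := (hb (2 * n + 1)).1; omega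
    · rw [hc4 k n h1, hc2 k n' h3 h4] at hxx; have := (hb (2 * n + 1)).2; omega
    · rw [hc4 k n h1, hc3 k n' h3 h4] at hxx
      have := (hemono k).injective hxx
      omega
    · rw [hc4 k n h1, hc4 k n' h3] at hxx
      have := (hemono k).injective hxx
      omega
  have hcμ : ∀ k n, n ≤ k → c k (μ n) = n := by
    intro k n hn
    by_cases hnM : n < M
    · have h1 : μ n = n := fixM_lt hnM
      rw [h1, hc1 k n hnM]
    · have h1 : μ n = M + 2 * (n - M) := fixM_ge (by omega)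
      rw [h1, hc2 k n (by omega) hn]
  have hcν : ∀ k n, c k (ν n) = fixM M (e k) (δ n) := by
    intro k n
    by_cases hnM : n < M
    · have h1 : ν n = n := fixM_lt hnM
      have h2 : δ n = n := fixM_lt hnM
      rw [h1, h2, hc1 k n hnM, fixM_lt hnM]
    · have h1 : ν n = M + 2 * (n - M) + 1 := fixM_ge (by omega)
      have h2 : δ n = 2 * n + 1 := fixM_ge (by omega)
      rw [h1, h2, hc4 k n (by omega), fixM_ge (by omega)]
  -- the limit
  have hne : (atTop ⊓ 𝓟 (col ⁻¹' {c0}) : Filter ℕ).NeBot :=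
    frequently_mem_iff_neBot.1 (Nat.frequently_atTop_iff_infinite.2 hc0)
  let U : Ultrafilter ℕ := Ultrafilter.of (atTop ⊓ 𝓟 (col ⁻¹' {c0}))
  have hU1 : (U : Filter ℕ) ≤ atTop := (Ultrafilter.of_le _).trans inf_le_left
  have hU2 : ∀ᶠ k in (U : Filter ℕ), col k = c0 := by
    have h1 : (U : Filter ℕ) ≤ 𝓟 (col ⁻¹' {c0}) := (Ultrafilter.of_le _).trans inf_le_right
    exact h1 (mem_principal_self _)
  obtain ⟨T, hT⟩ := lim U (fun k : ℕ => Sum.elim (fun a : I → ℕ => F k (c k ∘ a)) (fun x : ℕ => x))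
  let g : (I → ℕ) → ℕ := fun a => T (Sum.inl a)
  let m : ℕ → ℕ := fun x => T (Sum.inr x)
  have hm : Function.Injective m := by
    intro x x' hxx
    obtain ⟨k, σ, hσ⟩ := (hT {Sum.inr x, Sum.inr x'}).exists
    have h1 := hσ (Sum.inr x) (by simp)
    have h2 := hσ (Sum.inr x') (by simp)
    exact σ.injective ((h1.symm.trans hxx).trans h2)
  have hg : g ∈ E := by
    refine h.closed g fun W => ?_
    obtain ⟨k, σ, hσ⟩ := (hT (W.image Sum.inl)).exists
    refine ⟨fun a => σ (F k (c k ∘ a)), h.left_mem σ σ.injective _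
      (h.right_mem _ (hcinj k) _ (hF k)), fun a ha => ?_⟩
    exact hσ (Sum.inl a) (Finset.mem_image_of_mem _ ha)
  have hgμ : ∀ a : I → ℕ, g (μ ∘ a) = m (f a) := by
    intro a
    obtain ⟨k, ⟨σ, hσ⟩, hk⟩ := ((hT {Sum.inl (μ ∘ a), Sum.inr (f a)}).and
      (hU1 (eventually_ge_atTop (Finset.univ.sup a)))).exists
    have h1 := hσ (Sum.inl (μ ∘ a)) (by simp)
    have h2 := hσ (Sum.inr (f a)) (by simp)
    change g (μ ∘ a) = σ (F k (c k ∘ (μ ∘ a))) at h1
    change m (f a) = σ (f a) at h2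
    have hai : ∀ i, a i ≤ k := fun i => le_trans (Finset.le_sup (f := a) (Finset.mem_univ i)) hk
    have h3 : c k ∘ (μ ∘ a) = a := funext fun i => hcμ k _ (hai i)
    rw [h1, h2, h3, hag k a hai]
  have hgν : ∀ a b : I → ℕ, g (ν ∘ a) = g (ν ∘ b) ↔ κ (δ ∘ a) = κ (δ ∘ b) := by
    intro a b
    obtain ⟨k, ⟨σ, hσ⟩, hk⟩ := ((hT {Sum.inl (ν ∘ a), Sum.inl (ν ∘ b)}).and hU2).exists
    have h1 := hσ (Sum.inl (ν ∘ a)) (by simp)
    have h2 := hσ (Sum.inl (ν ∘ b)) (by simp)
    change g (ν ∘ a) = σ (F k (c k ∘ (ν ∘ a))) at h1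
    change g (ν ∘ b) = σ (F k (c k ∘ (ν ∘ b))) at h2
    have h3 : ∀ a : I → ℕ, c k ∘ (ν ∘ a) = fixM M (e k) ∘ (δ ∘ a) := fun a =>
      funext fun i => hcν k _
    rw [h1, h2, h3, h3, ← hlκ k hk, ← hlκ k hk, σ.injective.eq_iff, (hlinj k hk).eq_iff]
  obtain ⟨lam, hlam, hlamκ, hlame⟩ := factor (fun a : I → ℕ => κ (δ ∘ a))
    (fun a => 2 * g (ν ∘ a)) (fun a b => by
      rw [← hgν]
      constructor <;> intro h' <;> omega) (fun a => by omega)
  have hdbl : Function.Injective (fun n : ℕ => 2 * n) := fun a b hab => by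
    simp only at hab; omega
  let w := X f y
  have hmain : θ (fun n => 2 * n) (θ m w) = θ lam z := by
    have h1 : X g y = θ m w := by
      rw [← h.left_eq m hm f hf y, ← hfix' μ hμ (fun x hx => fixM_lt hx) g hg]
      congr 1
      funext a
      exact hgμ a
    have h2 : θ (fun n => 2 * n) (X g y) = θ lam z := by
      have h3 : θ (fun n => 2 * n) (X g y) = X (fun a => 2 * g (ν ∘ a)) y := by
        rw [← hfix' ν hν (fun x hx => fixM_lt hx) g hg]
        exact (h.left_eq (fun n => 2 * n) hdbl (fun a => g (ν ∘ a))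
          (h.right_mem ν hν g hg) y).symm
      have h4 : θ lam z = X (fun a => lam (κ (δ ∘ a))) y := by
        change θ lam (X κ y) = _
        rw [← hfix' δ hδ (fun x hx => fixM_lt hx) κ hκ]
        exact (h.left_eq lam hlam (fun a => κ (δ ∘ a)) (h.right_mem δ hδ κ hκ) y).symm
      rw [h3, h4]
      congr 1
      funext a
      exact (hlamκ a).symm
    rw [← h1, h2]
  obtain ⟨t, ht⟩ := h.hsupp w
  obtain ⟨S, hS, hleast⟩ := least_supp h.hcomp h.hid h.hsupp z
  have hdm : Function.Injective ((fun n : ℕ => 2 * n) ∘ m) := hdbl.comp hm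
  have hmain' : θ ((fun n : ℕ => 2 * n) ∘ m) w = θ lam z := by
    rw [h.hcomp _ _ hdbl hm]
    exact hmain
  have hR : Supp θ (t.image ((fun n : ℕ => 2 * n) ∘ m)) (θ lam z) := by
    intro p q hp hq hpq
    rw [← hmain']
    have h1 := ht (p ∘ ((fun n : ℕ => 2 * n) ∘ m)) (q ∘ ((fun n : ℕ => 2 * n) ∘ m))
      (hp.comp hdm) (hq.comp hdm) (fun x hx => hpq _ (Finset.mem_image_of_mem _ hx))
    rw [h.hcomp _ _ hp hdm, h.hcomp _ _ hq hdm] at h1
    exact h1
  have hx : ∀ x ∈ S, ∃ v : ℕ, ∃ b : I → ℕ, lam x = 2 * m v ∧ κ (δ ∘ b) = x ∧ g (ν ∘ b) = m v := by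
    intro x hx
    have h1 := hleast lam hlam _ hR x hx
    rw [Finset.mem_image] at h1
    obtain ⟨v, -, hv⟩ := h1
    have hv : 2 * m v = lam x := hv
    obtain ⟨b, hb⟩ := hlame x (by omega)
    have hb : κ (δ ∘ b) = x := hb
    have h2 := hlamκ b
    change lam (κ (δ ∘ b)) = 2 * g (ν ∘ b) at h2
    rw [hb] at h2
    exact ⟨v, b, hv.symm, hb, by omega⟩
  choose! v b hv hb hgb using hx
  obtain ⟨k, ⟨σ, hσ⟩, hk⟩ := ((hT (S.image (fun x => Sum.inl (ν ∘ b x)) ∪
    S.image (fun x => Sum.inr (v x)))).and hU2).exists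
  refine hcon k ?_
  have hlv : ∀ x ∈ S, l k x = v x := by
    intro x hx
    have h1 := hσ (Sum.inl (ν ∘ b x)) (Finset.mem_union_left _ (Finset.mem_image_of_mem _ hx))
    have h2 := hσ (Sum.inr (v x)) (Finset.mem_union_right _
      (Finset.mem_image_of_mem (fun x => (Sum.inr (v x) : (I → ℕ) ⊕ ℕ)) hx))
    change g (ν ∘ b x) = σ (F k (c k ∘ (ν ∘ b x))) at h1
    change m (v x) = σ (v x) at h2
    have h3 : c k ∘ (ν ∘ b x) = fixM M (e k) ∘ (δ ∘ b x) := funext fun i => hcν k _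
    rw [hgb x hx, h2, h3, ← hlκ k hk, hb x hx] at h1
    exact (σ.injective h1).symm
  have hfin : θ ((fun n : ℕ => 2 * n) ∘ m) (θ (l k) z) = θ ((fun n : ℕ => 2 * n) ∘ m) w := by
    rw [hmain']
    have h1 := hS (((fun n : ℕ => 2 * n) ∘ m) ∘ l k) lam (hdm.comp (hlinj k hk)) hlam (by
      intro x hx
      change 2 * m (l k x) = lam x
      rw [hlv x hx, hv x hx])
    rw [h.hcomp _ _ hdm (hlinj k hk)] at h1
    exact h1
  have := act_inj h.hcomp h.hid h.hsupp hdm hfin
  rw [← hlz k hk]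
  exact this

/-- **Continuity of `X`.** -/
theorem cont (h : Act θ E X) {f : (I → ℕ) → ℕ} (hf : f ∈ E) (y : I → Y) :
    ∃ k : ℕ, ∀ g ∈ E, (∀ a : I → ℕ, (∀ i, a i ≤ k) → g a = f a) → X g y = X f y := by
  by_contra hcon
  push Not at hcon
  choose F hF hag hne using hcon
  have hdbl : Function.Injective (fun n : ℕ => 2 * n) := fun a b hab => by
    simp only at hab; omega
  obtain ⟨k, hk⟩ := cont_even h (h.left_mem _ hdbl f hf) y (fun k a => 2 * F k a)
    (fun k => h.left_mem _ hdbl _ (hF k)) (fun k a ha => by simp only [hag k a ha])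
    (fun k a => by omega)
  refine hne k ?_
  rw [h.left_eq _ hdbl _ (hF k), h.left_eq _ hdbl _ hf] at hk
  exact act_inj h.hcomp h.hid h.hsupp hdbl hk

/-- **Continuity of the inverse of `X`.** -/
theorem cont_inv (h : Act θ E X) (hX : ∀ f ∈ E, ∀ g ∈ E, X f = X g → f = g)
    {f : (I → ℕ) → ℕ} (hf : f ∈ E) (a : I → ℕ) :
    ∃ W : Finset (I → Y), ∀ g ∈ E, (∀ y ∈ W, X g y = X f y) → g a = f a := by
  classical
  by_contra hcon
  push Not at hcon
  choose G hG hag hne using hcon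
  let U : Ultrafilter (Finset (I → Y)) := Ultrafilter.of atTop
  have hU : (U : Filter (Finset (I → Y))) ≤ atTop := Ultrafilter.of_le _
  obtain ⟨T, hT⟩ := lim U (fun W => Sum.elim (fun b : I → ℕ => G W b) (fun x : ℕ => x))
  let g : (I → ℕ) → ℕ := fun a => T (Sum.inl a)
  let m : ℕ → ℕ := fun x => T (Sum.inr x)
  have hm : Function.Injective m := by
    intro x x' hxx
    obtain ⟨k, σ, hσ⟩ := (hT {Sum.inr x, Sum.inr x'}).exists
    have h1 := hσ (Sum.inr x) (by simp)
    have h2 := hσ (Sum.inr x') (by simp)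
    exact σ.injective ((h1.symm.trans hxx).trans h2)
  have hg : g ∈ E := by
    refine h.closed g fun W => ?_
    obtain ⟨k, σ, hσ⟩ := (hT (W.image Sum.inl)).exists
    exact ⟨fun a => σ (G k a), h.left_mem σ σ.injective _ (hG k), fun a ha =>
      hσ (Sum.inl a) (Finset.mem_image_of_mem _ ha)⟩
  have hkey : X g = X (fun b => m (f b)) := by
    funext y
    obtain ⟨k, hk⟩ := cont h hg y
    obtain ⟨t, ht⟩ := h.hsupp (X f y)
    have : Finite {b : I → ℕ | ∀ i, b i ≤ k} := by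
      have h1 : ({b : I → ℕ | ∀ i, b i ≤ k}).Finite := by
        have h2 := Set.Finite.pi' (ι := I) (t := fun _ => Set.Iic k) (fun _ => Set.finite_Iic k)
        exact h2
      exact h1
    let B : Finset (I → ℕ) := (Set.toFinite {b : I → ℕ | ∀ i, b i ≤ k}).toFinset
    obtain ⟨W, ⟨σ, hσ⟩, hW⟩ := ((hT (B.image Sum.inl ∪ t.image Sum.inr)).and
      (hU (eventually_ge_atTop ({y} : Finset (I → Y))))).exists
    have h1 := hk (fun b => σ (G W b)) (h.left_mem σ σ.injective _ (hG W)) (by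
      intro b hb
      refine (hσ (Sum.inl b) (Finset.mem_union_left _ (Finset.mem_image_of_mem _ ?_))).symm
      exact (Set.Finite.mem_toFinset _).2 hb)
    rw [← h1, h.left_eq σ σ.injective _ (hG W), hag W y (hW (Finset.mem_singleton_self y)),
      h.left_eq m hm f hf]
    refine ht σ m σ.injective hm fun x hx => ?_
    exact (hσ (Sum.inr x) (Finset.mem_union_right _ (Finset.mem_image_of_mem _ hx))).symm
  have hgm := hX g hg _ (h.left_mem m hm f hf) hkey
  obtain ⟨W, σ, hσ⟩ := (hT {Sum.inl a, Sum.inr (f a)}).exists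
  have h1 := hσ (Sum.inl a) (by simp)
  have h2 := hσ (Sum.inr (f a)) (by simp)
  refine hne W (σ.injective ?_)
  change g a = σ (G W a) at h1
  change m (f a) = σ (f a) at h2
  rw [← h1, ← h2, hgm]

end

end Pool.Agent.X193.AHC
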