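import Pool.Agent.X193.AHC.Unary

/-!
Least supports for actions of the monoid of injections of `ℕ`.
-/

namespace Pool.Agent.X193.AHC

variable {Y : Type}

/-- `S` supports the point `z`. -/
def Supp (θ : (ℕ → ℕ) → Y → Y) (S : Finset ℕ) (z : Y) : Prop :=
  ∀ f g : ℕ → ℕ, Function.Injective f → Function.Injective g → (∀ x ∈ S, f x = g x) →
    θ f z = θ g z

/-- Every injection agrees with a permutation on a given finite set. -/
theorem perm_ext (l : ℕ → ℕ) (hl : Function.Injective l) (S : Finset ℕ) :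
    ∃ u : Equiv.Perm ℕ, ∀ x ∈ S, u x = l x := by
  have h := Equiv.Perm.isMultiplyPretransitive ℕ S.card
  let x : Fin S.card ↪ ℕ := ⟨fun i => (S.equivFin.symm i : ℕ), fun a b hab =>
    S.equivFin.symm.injective (Subtype.ext hab)⟩
  obtain ⟨g, hg⟩ := h.exists_smul_eq x (x.trans ⟨l, hl⟩)
  refine ⟨g, fun y hy => ?_⟩
  have h1 := congrArg (fun e : Fin S.card ↪ ℕ => e (S.equivFin ⟨y, hy⟩)) hg
  have h2 : (x (S.equivFin ⟨y, hy⟩) : ℕ) = y := by
    change ((S.equivFin.symm (S.equivFin ⟨y, hy⟩) : S) : ℕ) = y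
    rw [Equiv.symm_apply_apply]
  have h3 : g (x (S.equivFin ⟨y, hy⟩)) = l (x (S.equivFin ⟨y, hy⟩)) := h1
  rwa [h2] at h3

section

variable {θ : (ℕ → ℕ) → Y → Y}

theorem Supp.mono {S T : Finset ℕ} {z : Y} (h : Supp θ S z) (hST : S ⊆ T) : Supp θ T z :=
  fun f g hf hg hfg => h f g hf hg fun x hx => hfg x (hST hx)

theorem perm_act_inj
    (hcomp : ∀ f g : ℕ → ℕ, Function.Injective f → Function.Injective g →
      θ (f ∘ g) = θ f ∘ θ g) (hid : θ id = id) (u : Equiv.Perm ℕ) :
    Function.Injective (θ u) := by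
  intro z z' h
  have h1 : θ (u.symm ∘ u) = θ u.symm ∘ θ u := hcomp _ _ u.symm.injective u.injective
  rw [Equiv.symm_comp_self, hid] at h1
  have h2 := congrFun h1 z
  have h3 := congrFun h1 z'
  change z = θ u.symm (θ u z) at h2
  change z' = θ u.symm (θ u z') at h3
  rw [h2, h3, h]

/-- Injections act as injections. -/
theorem act_inj
    (hcomp : ∀ f g : ℕ → ℕ, Function.Injective f → Function.Injective g →
      θ (f ∘ g) = θ f ∘ θ g) (hid : θ id = id) (hS : ∀ z, ∃ S, Supp θ S z)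
    {l : ℕ → ℕ} (hl : Function.Injective l) : Function.Injective (θ l) := by
  classical
  intro z z' h
  obtain ⟨S, hS1⟩ := hS z
  obtain ⟨T, hT1⟩ := hS z'
  obtain ⟨u, hu⟩ := perm_ext l hl (S ∪ T)
  have h1 := hS1 u l u.injective hl fun x hx => hu x (Finset.mem_union_left _ hx)
  have h2 := hT1 u l u.injective hl fun x hx => hu x (Finset.mem_union_right _ hx)
  exact perm_act_inj hcomp hid u (by rw [h1, h2, h])

theorem swap_inj (a b : ℕ) : Function.Injective (Equiv.swap a b) := (Equiv.swap a b).injective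

/-- If moving one point of a support to the outside fixes `z`, the point can be left out. -/
theorem supp_erase
    (hcomp : ∀ f g : ℕ → ℕ, Function.Injective f → Function.Injective g →
      θ (f ∘ g) = θ f ∘ θ g) {S : Finset ℕ} {z : Y} (hS : Supp θ S z)
    {x x' : ℕ} (hx : x ∈ S) (hx' : x' ∉ S) (hz : θ (Equiv.swap x x') z = z) :
    Supp θ (S.erase x) z := by
  classical
  intro f g hf hg hfg
  have hne : x ≠ x' := fun h => hx' (h ▸ hx)
  obtain ⟨p, hp⟩ := Infinite.exists_notMem_finset (S.image f ∪ S.image g)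
  rw [Finset.mem_union, not_or] at hp
  have hpf : ∀ y ∈ S, f y ≠ p := fun y hy h => hp.1 (h ▸ Finset.mem_image_of_mem f hy)
  have hpg : ∀ y ∈ S, g y ≠ p := fun y hy h => hp.2 (h ▸ Finset.mem_image_of_mem g hy)
  let f1 : ℕ → ℕ := Equiv.swap p (f x') ∘ f
  have hf1 : Function.Injective f1 := (swap_inj _ _).comp hf
  have hf1S : ∀ y ∈ S, f1 y = f y := fun y hy =>
    Equiv.swap_apply_of_ne_of_ne (hpf y hy) (fun h => hx' (by rw [← hf h]; exact hy))
  have hf1x' : f1 x' = p := Equiv.swap_apply_right _ _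
  let f2 : ℕ → ℕ := Equiv.swap (f1 x) (g x) ∘ f1
  have hf2 : Function.Injective f2 := (swap_inj _ _).comp hf1
  have hf2x : f2 x = g x := Equiv.swap_apply_left _ _
  have hf2y : ∀ y ∈ S, y ≠ x → f2 y = f1 y := by
    intro y hy hyx
    refine Equiv.swap_apply_of_ne_of_ne (fun h => hyx (hf1 h)) (fun h => ?_)
    rw [hf1S y hy, hfg y (Finset.mem_erase.2 ⟨hyx, hy⟩)] at h
    exact hyx (hg h)
  have hf2x' : f2 x' = f1 x' := by
    refine Equiv.swap_apply_of_ne_of_ne (fun h => hne (hf1 h).symm) (fun h => ?_)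
    rw [hf1x'] at h
    exact hpg x hx h.symm
  have e1 : θ f z = θ f1 z := hS f f1 hf hf1 fun y hy => (hf1S y hy).symm
  have e2 : θ f1 z = θ f2 z := by
    have h1 := hS (f1 ∘ Equiv.swap x x') (f2 ∘ Equiv.swap x x') (hf1.comp (swap_inj _ _))
      (hf2.comp (swap_inj _ _)) (by
        intro y hy
        by_cases hyx : y = x
        · subst hyx
          change f1 (Equiv.swap y x' y) = f2 (Equiv.swap y x' y)
          rw [Equiv.swap_apply_left, hf2x']
        · change f1 (Equiv.swap x x' y) = f2 (Equiv.swap x x' y)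
          rw [Equiv.swap_apply_of_ne_of_ne hyx (fun h => hx' (by rw [← h]; exact hy)),
            hf2y y hy hyx])
    rw [hcomp _ _ hf1 (swap_inj _ _), hcomp _ _ hf2 (swap_inj _ _)] at h1
    change θ f1 (θ (Equiv.swap x x') z) = θ f2 (θ (Equiv.swap x x') z) at h1
    rwa [hz] at h1
  have e3 : θ f2 z = θ g z := hS f2 g hf2 hg (by
    intro y hy
    by_cases hyx : y = x
    · subst hyx; exact hf2x
    · rw [hf2y y hy hyx, hf1S y hy, hfg y (Finset.mem_erase.2 ⟨hyx, hy⟩)])
  rw [e1, e2, e3]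

/-- Least supports, and how they move. -/
theorem least_supp
    (hcomp : ∀ f g : ℕ → ℕ, Function.Injective f → Function.Injective g →
      θ (f ∘ g) = θ f ∘ θ g) (hid : θ id = id) (hS : ∀ z, ∃ S, Supp θ S z) (z : Y) :
    ∃ S : Finset ℕ, Supp θ S z ∧ ∀ l : ℕ → ℕ, Function.Injective l → ∀ R : Finset ℕ,
      Supp θ R (θ l z) → ∀ x ∈ S, l x ∈ R := by
  classical
  have hex : ∃ n, ∃ S : Finset ℕ, Supp θ S z ∧ S.card = n := by
    obtain ⟨S, h⟩ := hS z
    exact ⟨_, S, h, rfl⟩
  obtain ⟨S, h1, h2⟩ := Nat.find_spec hex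
  refine ⟨S, h1, fun l hl R hR x hx => ?_⟩
  by_contra hxR
  obtain ⟨x', hx'⟩ : ∃ x', x' ∉ S ∪ (R.preimage l hl.injOn) := Infinite.exists_notMem_finset _
  rw [Finset.mem_union, not_or, Finset.mem_preimage] at hx'
  have hne : x ≠ x' := fun h => hx'.1 (h ▸ hx)
  have e1 : θ (Equiv.swap (l x) (l x') ∘ l) z = θ (l ∘ Equiv.swap x x') z := by
    refine h1 _ _ ((swap_inj _ _).comp hl) (hl.comp (swap_inj _ _)) fun y hy => ?_
    change Equiv.swap (l x) (l x') (l y) = l (Equiv.swap x x' y)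
    by_cases hyx : y = x
    · subst hyx
      rw [Equiv.swap_apply_left, Equiv.swap_apply_left]
    · have hyx' : y ≠ x' := fun h => hx'.1 (h ▸ hy)
      rw [Equiv.swap_apply_of_ne_of_ne hyx hyx', Equiv.swap_apply_of_ne_of_ne
        (fun h => hyx (hl h)) (fun h => hyx' (hl h))]
  rw [hcomp _ _ (swap_inj _ _) hl, hcomp _ _ hl (swap_inj _ _)] at e1
  have e2 : θ (Equiv.swap (l x) (l x')) (θ l z) = θ id (θ l z) := by
    refine hR _ _ (swap_inj _ _) Function.injective_id fun y hy => ?_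
    exact Equiv.swap_apply_of_ne_of_ne (fun h => hxR (by rw [← h]; exact hy))
      (fun h => hx'.2 (by rw [← h]; exact hy))
  rw [hid] at e2
  have e3 : θ l (θ (Equiv.swap x x') z) = θ l z := e1.symm.trans e2
  have e4 := act_inj hcomp hid hS hl e3
  have e5 := supp_erase hcomp h1 hx hx'.1 e4
  have e6 : (S.erase x).card < Nat.find hex := by
    rw [← h2]
    exact Finset.card_erase_lt_of_mem hx
  exact Nat.find_min hex e6 ⟨_, e5, rfl⟩

end

end Pool.Agent.X193.AHC
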