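import Mathlib

/-!
Actions of the monoid of all injections `ℕ → ℕ` on a countable set: finite supports.
-/

namespace Pool.Agent.X193.AHC

open Filter

theorem exists_pair {Y : Type} [Countable Y] (F : (ℕ → Bool) → Y) :
    ∃ x x' : ℕ → Bool, x ≠ x' ∧ F x = F x' := by
  classical
  by_contra hcon
  push Not at hcon
  obtain ⟨ι, hι⟩ := exists_injective_nat Y
  refine Function.cantor_injective (fun s : Set ℕ => ι (F fun n => decide (n ∈ s))) ?_
  intro s t hst
  by_contra hne
  refine hcon (fun n => decide (n ∈ s)) (fun n => decide (n ∈ t)) ?_ (hι hst)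
  intro h
  apply hne
  ext n
  have := congrFun h n
  exact decide_eq_decide.1 this

/-- The injection of `ℕ` which belongs to a branch of the binary tree. -/
def br (x : ℕ → Bool) (n : ℕ) : ℕ := 2 * Encodable.encode (List.ofFn fun i : Fin n => x i)

theorem br_eq {x x' : ℕ → Bool} {a b : ℕ} (h : br x a = br x' b) : a = b ∧ ∀ i < a, x i = x' i := by
  have h1 : (List.ofFn fun i : Fin a => x i) = List.ofFn fun i : Fin b => x' i :=
    Encodable.encode_injective (by unfold br at h; omega)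
  have h2 : a = b := by
    have := congrArg List.length h1
    simpa using this
  subst h2
  refine ⟨rfl, fun i hi => ?_⟩
  have h3 := List.ofFn_injective h1
  exact congrFun h3 ⟨i, hi⟩

theorem br_inj (x : ℕ → Bool) : Function.Injective (br x) := fun _ _ h => (br_eq h).1

/-- An infinite set of naturals contains the range of an injection. -/
theorem inf_emb {Z : Set ℕ} (hZ : Z.Infinite) : ∃ e : ℕ → ℕ, Function.Injective e ∧ ∀ n, e n ∈ Z :=
  ⟨fun n => hZ.natEmbedding Z n, fun _ _ h => (hZ.natEmbedding Z).injective (Subtype.ext h),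
    fun n => (hZ.natEmbedding Z n).2⟩

theorem inf_split {Z : Set ℕ} (hZ : Z.Infinite) :
    ∃ e : ℕ → ℕ, Function.Injective e ∧ (∀ n, e n ∈ Z) ∧ (Z \ Set.range e).Infinite := by
  obtain ⟨e, he, heZ⟩ := inf_emb hZ
  refine ⟨fun n => e (2 * n), fun a b h => by have := he h; omega, fun n => heZ _, ?_⟩
  have h1 : Set.range (fun n => e (2 * n + 1)) ⊆ Z \ Set.range (fun n => e (2 * n)) := by
    rintro _ ⟨n, rfl⟩
    refine ⟨heZ _, ?_⟩
    rintro ⟨m, hm⟩
    have := he hm
    omega
  exact (Set.infinite_range_of_injective (fun a b h => by have := he h; omega)).mono h1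

section

variable {Y : Type} [Countable Y] {C : Set (ℕ → ℕ)} {θ : (ℕ → ℕ) → Y → Y}

/-- Two injections which agree up to `m` and are otherwise disjoint. -/
theorem dagger (hinj : ∀ f : ℕ → ℕ, Function.Injective f → f ∈ C)
    (hcomp : ∀ f ∈ C, ∀ g ∈ C, θ (f ∘ g) = θ f ∘ θ g) (y : Y) :
    ∃ m : ℕ, ∀ f g : ℕ → ℕ, Function.Injective f → Function.Injective g →
      (∀ n ≤ m, f n = g n) → (∀ a b, f a = g b → a = b ∧ a ≤ m) →
      (Set.range f ∪ Set.range g)ᶜ.Infinite → θ f y = θ g y := by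
  classical
  obtain ⟨x, x', hne, hxx⟩ := exists_pair fun x => θ (br x) y
  have hex : ∃ i, x i ≠ x' i := by
    by_contra h
    push Not at h
    exact hne (funext h)
  let m := Nat.find hex
  have hm : x m ≠ x' m := Nat.find_spec hex
  have hmin : ∀ i < m, x i = x' i := fun i hi => by
    have := Nat.find_min hex hi
    push Not at this
    exact this
  have hbr : ∀ n ≤ m, br x n = br x' n := by
    intro n hn
    unfold br
    congr 3
    funext i
    exact hmin i (lt_of_lt_of_le i.2 hn)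
  refine ⟨m, fun f g hf hg hfg hdis hZ => ?_⟩
  obtain ⟨e, he, heZ⟩ := inf_emb hZ
  let h : ℕ → ℕ := fun z => if hz : ∃ n, br x n = z then f hz.choose
    else if hz' : ∃ n, br x' n = z then g hz'.choose else e z
  have hx : ∀ n, h (br x n) = f n := by
    intro n
    have hz : ∃ k, br x k = br x n := ⟨n, rfl⟩
    have h1 : h (br x n) = f hz.choose := dif_pos hz
    rw [h1, br_inj x hz.choose_spec]
  have hx' : ∀ n, h (br x' n) = g n := by
    intro n
    by_cases hn : n ≤ m
    · rw [← hbr n hn, hx, hfg n hn]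
    · have hz : ¬ ∃ k, br x k = br x' n := by
        rintro ⟨k, hk⟩
        obtain ⟨h1, h2⟩ := br_eq hk
        exact hm (h2 m (by omega))
      have hz' : ∃ k, br x' k = br x' n := ⟨n, rfl⟩
      have h1 : h (br x' n) = g hz'.choose := by
        change (if hz : ∃ k, br x k = br x' n then f hz.choose
          else if hz' : ∃ k, br x' k = br x' n then g hz'.choose else e (br x' n)) = _
        rw [dif_neg hz, dif_pos hz']
      rw [h1, br_inj x' hz'.choose_spec]
  have hother : ∀ z, (¬ ∃ n, br x n = z) → (¬ ∃ n, br x' n = z) → h z = e z := by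
    intro z h1 h2
    change (if hz : ∃ k, br x k = z then f hz.choose
          else if hz' : ∃ k, br x' k = z then g hz'.choose else e z) = _
    rw [dif_neg h1, dif_neg h2]
  have hcase : ∀ z, (∃ n, z = br x n) ∨ (∃ n, z = br x' n) ∨
      ((¬ ∃ n, br x n = z) ∧ ¬ ∃ n, br x' n = z) := by
    intro z
    by_cases h1 : ∃ n, br x n = z
    · obtain ⟨n, hn⟩ := h1
      exact Or.inl ⟨n, hn.symm⟩
    · by_cases h2 : ∃ n, br x' n = z
      · obtain ⟨n, hn⟩ := h2
        exact Or.inr (Or.inl ⟨n, hn.symm⟩)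
      · exact Or.inr (Or.inr ⟨h1, h2⟩)
  have hhinj : Function.Injective h := by
    intro z z' hzz
    rcases hcase z with ⟨n, rfl⟩ | ⟨n, rfl⟩ | ⟨h1, h2⟩ <;>
    rcases hcase z' with ⟨k, rfl⟩ | ⟨k, rfl⟩ | ⟨h3, h4⟩
    · rw [hx, hx] at hzz; rw [hf hzz]
    · rw [hx, hx'] at hzz
      obtain ⟨h5, h6⟩ := hdis _ _ hzz
      rw [← h5, hbr n h6]
    · rw [hx, hother _ h3 h4] at hzz
      exact absurd (Or.inl ⟨n, hzz⟩) (heZ z')
    · rw [hx', hx] at hzz
      obtain ⟨h5, h6⟩ := hdis _ _ hzz.symm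
      rw [← h5, hbr k h6]
    · rw [hx', hx'] at hzz; rw [hg hzz]
    · rw [hx', hother _ h3 h4] at hzz
      exact absurd (Or.inr ⟨n, hzz⟩) (heZ z')
    · rw [hx, hother _ h1 h2] at hzz
      exact absurd (Or.inl ⟨k, hzz.symm⟩) (heZ z)
    · rw [hx', hother _ h1 h2] at hzz
      exact absurd (Or.inr ⟨k, hzz.symm⟩) (heZ z)
    · rw [hother _ h1 h2, hother _ h3 h4] at hzz
      exact he hzz
  have e1 : h ∘ br x = f := funext hx
  have e2 : h ∘ br x' = g := funext hx'
  rw [← e1, ← e2, hcomp _ (hinj _ hhinj) _ (hinj _ (br_inj x)),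
    hcomp _ (hinj _ hhinj) _ (hinj _ (br_inj x'))]
  exact congrArg (θ h) hxx

theorem ddagger (hinj : ∀ f : ℕ → ℕ, Function.Injective f → f ∈ C)
    (hcomp : ∀ f ∈ C, ∀ g ∈ C, θ (f ∘ g) = θ f ∘ θ g) (y : Y) :
    ∃ m : ℕ, ∀ f g : ℕ → ℕ, Function.Injective f → Function.Injective g →
      (∀ n ≤ m, f n = g n) → (Set.range f ∪ Set.range g)ᶜ.Infinite → θ f y = θ g y := by
  classical
  obtain ⟨m, hm⟩ := dagger hinj hcomp y
  refine ⟨m, fun f g hf hg hfg hZ => ?_⟩
  obtain ⟨e, he, heZ, heI⟩ := inf_split hZ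
  let k : ℕ → ℕ := fun n => if n ≤ m then f n else e n
  have hk1 : ∀ n ≤ m, k n = f n := fun n hn => if_pos hn
  have hk2 : ∀ n, ¬ n ≤ m → k n = e n := fun n hn => if_neg hn
  have hef : ∀ a b, f a ≠ e b := fun a b h => heZ b (Or.inl ⟨a, h⟩)
  have heg : ∀ a b, g a ≠ e b := fun a b h => heZ b (Or.inr ⟨a, h⟩)
  have hkinj : Function.Injective k := by
    intro a b hab
    by_cases ha : a ≤ m <;> by_cases hb : b ≤ m
    · rw [hk1 a ha, hk1 b hb] at hab; exact hf hab
    · rw [hk1 a ha, hk2 b hb] at hab; exact absurd hab (hef _ _)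
    · rw [hk2 a ha, hk1 b hb] at hab; exact absurd hab.symm (hef _ _)
    · rw [hk2 a ha, hk2 b hb] at hab; exact he hab
  have hsub : ∀ u : ℕ → ℕ, (∀ z, z ∈ Set.range u → z ∈ Set.range f ∪ Set.range g) →
      ((Set.range f ∪ Set.range g)ᶜ \ Set.range e) ⊆ (Set.range u ∪ Set.range k)ᶜ := by
    intro u hu z hz hz'
    rcases hz' with hz' | ⟨n, rfl⟩
    · exact hz.1 (hu z hz')
    · by_cases hn : n ≤ m
      · rw [hk1 n hn] at hz
        exact hz.1 (Or.inl ⟨n, rfl⟩)
      · rw [hk2 n hn] at hz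
        exact hz.2 ⟨n, rfl⟩
  have h1 : θ f y = θ k y := by
    refine hm f k hf hkinj (fun n hn => (hk1 n hn).symm) ?_ (heI.mono (hsub f fun z hz => Or.inl hz))
    intro a b hab
    by_cases hb : b ≤ m
    · rw [hk1 b hb] at hab
      have := hf hab
      exact ⟨this, by omega⟩
    · rw [hk2 b hb] at hab; exact absurd hab (hef _ _)
  have h2 : θ g y = θ k y := by
    refine hm g k hg hkinj (fun n hn => ((hk1 n hn).trans (hfg n hn)).symm) ?_
      (heI.mono (hsub g fun z hz => Or.inr hz))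
    intro a b hab
    by_cases hb : b ≤ m
    · rw [hk1 b hb, hfg b hb] at hab
      have := hg hab
      exact ⟨this, by omega⟩
    · rw [hk2 b hb] at hab; exact absurd hab (heg _ _)
  rw [h1, h2]

/-- For injections `f`, `g` whose ranges have infinite complements. -/
theorem dddagger (hinj : ∀ f : ℕ → ℕ, Function.Injective f → f ∈ C)
    (hcomp : ∀ f ∈ C, ∀ g ∈ C, θ (f ∘ g) = θ f ∘ θ g) (y : Y) :
    ∃ m : ℕ, ∀ f g : ℕ → ℕ, Function.Injective f → Function.Injective g →
      (∀ n ≤ m, f n = g n) → (Set.range f)ᶜ.Infinite → (Set.range g)ᶜ.Infinite →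
      θ f y = θ g y := by
  classical
  obtain ⟨m, hm⟩ := ddagger hinj hcomp y
  refine ⟨m, fun f g hf hg hfg hP hQ => ?_⟩
  let A : ℕ → Set ℕ := fun i => if i % 3 = 0 then (Set.range f)ᶜ else
    if i % 3 = 1 then (Set.range g)ᶜ else Set.univ
  have hA : ∀ i, (A i).Infinite := by
    intro i
    by_cases h0 : i % 3 = 0
    · rw [show A i = (Set.range f)ᶜ from if_pos h0]; exact hP
    · by_cases h1 : i % 3 = 1
      · rw [show A i = (Set.range g)ᶜ from by
          change (if i % 3 = 0 then (Set.range f)ᶜ else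
            if i % 3 = 1 then (Set.range g)ᶜ else Set.univ) = _
          rw [if_neg h0, if_pos h1]]
        exact hQ
      · rw [show A i = Set.univ from by
          change (if i % 3 = 0 then (Set.range f)ᶜ else
            if i % 3 = 1 then (Set.range g)ᶜ else Set.univ) = _
          rw [if_neg h0, if_neg h1]]
        exact Set.infinite_univ
  obtain ⟨φ, hφ, hφA⟩ := Filter.extraction_forall_of_frequently (P := fun i k => k ∈ A i)
    (fun i => Nat.frequently_atTop_iff_infinite.2 (hA i))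
  have hφf : ∀ i, φ (3 * i) ∉ Set.range f := by
    intro i
    have h1 := hφA (3 * i)
    rwa [show A (3 * i) = (Set.range f)ᶜ from if_pos (by omega)] at h1
  have hφg : ∀ i, φ (3 * i + 1) ∉ Set.range g := by
    intro i
    have h1 := hφA (3 * i + 1)
    rwa [show A (3 * i + 1) = (Set.range g)ᶜ from by
          change (if (3 * i + 1) % 3 = 0 then (Set.range f)ᶜ else
            if (3 * i + 1) % 3 = 1 then (Set.range g)ᶜ else Set.univ) = _
          rw [if_neg (by omega), if_pos (by omega)]] at h1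
  -- a bound for the first values
  let N := (Finset.range (m + 1)).sup f + 1
  have hN : ∀ n ≤ m, f n < N := fun n hn =>
    Nat.lt_succ_of_le (Finset.le_sup (f := f) (Finset.mem_range.2 (by omega)))
  let k : ℕ → ℕ := fun n => if n ≤ m then f n else φ (3 * (n + N) + 2)
  have hk1 : ∀ n ≤ m, k n = f n := fun n hn => if_pos hn
  have hk2 : ∀ n, ¬ n ≤ m → k n = φ (3 * (n + N) + 2) := fun n hn => if_neg hn
  have hfk : ∀ a ≤ m, ∀ b, f a ≠ φ (3 * (b + N) + 2) := by
    intro a ha b h
    have h1 := hN a ha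
    have h2 := hφ.id_le (3 * (b + N) + 2)
    simp only [id] at h2
    omega
  have hkinj : Function.Injective k := by
    intro a b hab
    by_cases ha : a ≤ m <;> by_cases hb : b ≤ m
    · rw [hk1 a ha, hk1 b hb] at hab; exact hf hab
    · rw [hk1 a ha, hk2 b hb] at hab; exact absurd hab (hfk a ha _)
    · rw [hk2 a ha, hk1 b hb] at hab; exact absurd hab.symm (hfk b hb _)
    · rw [hk2 a ha, hk2 b hb] at hab
      have := hφ.injective hab
      omega
  have hlarge : ∀ (j : ℕ), j < 3 → ∀ i, φ (3 * (i + N) + j) ∈ Set.range k → j = 2 := by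
    rintro j hj i ⟨n, hn⟩
    by_cases hnm : n ≤ m
    · rw [hk1 n hnm] at hn
      have h1 := hN n hnm
      have h2 := hφ.id_le (3 * (i + N) + j)
      simp only [id] at h2
      omega
    · rw [hk2 n hnm] at hn
      have := hφ.injective hn
      omega
  have h1 : θ f y = θ k y := by
    refine hm f k hf hkinj (fun n hn => (hk1 n hn).symm) ?_
    have hsub : Set.range (fun i => φ (3 * (i + N))) ⊆ (Set.range f ∪ Set.range k)ᶜ := by
      rintro _ ⟨i, rfl⟩ hz
      rcases hz with hz | hz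
      · exact hφf _ hz
      · have := hlarge 0 (by norm_num) i hz
        omega
    refine (Set.infinite_range_of_injective ?_).mono hsub
    intro a b h
    have := hφ.injective h
    omega
  have h2 : θ g y = θ k y := by
    refine hm g k hg hkinj (fun n hn => ((hk1 n hn).trans (hfg n hn)).symm) ?_
    have hsub : Set.range (fun i => φ (3 * (i + N) + 1)) ⊆ (Set.range g ∪ Set.range k)ᶜ := by
      rintro _ ⟨i, rfl⟩ hz
      rcases hz with hz | hz
      · exact hφg _ hz
      · have := hlarge 1 (by norm_num) i hz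
        omega
    refine (Set.infinite_range_of_injective ?_).mono hsub
    intro a b h
    have := hφ.injective h
    omega
  rw [h1, h2]

/-- Finite supports for the points `θ c y'`, `c` an injection with co-infinite range. -/
theorem supp_star (hinj : ∀ f : ℕ → ℕ, Function.Injective f → f ∈ C)
    (hcomp : ∀ f ∈ C, ∀ g ∈ C, θ (f ∘ g) = θ f ∘ θ g) {c : ℕ → ℕ} (hc : Function.Injective c)
    (hcI : (Set.range c)ᶜ.Infinite) (y : Y) :
    ∃ t : Finset ℕ, ∀ f g : ℕ → ℕ, Function.Injective f → Function.Injective g →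
      (∀ x ∈ t, f x = g x) → θ f (θ c y) = θ g (θ c y) := by
  classical
  obtain ⟨m, hm⟩ := dddagger hinj hcomp y
  refine ⟨(Finset.range (m + 1)).image c, fun f g hf hg hfg => ?_⟩
  have hco : ∀ f : ℕ → ℕ, Function.Injective f → (Set.range (f ∘ c))ᶜ.Infinite := by
    intro f hf
    refine (hcI.image hf.injOn).mono ?_
    rintro _ ⟨z, hz, rfl⟩ ⟨n, hn⟩
    exact hz ⟨n, hf hn⟩
  have h1 := hm (f ∘ c) (g ∘ c) (hf.comp hc) (hg.comp hc)
    (fun n hn => hfg _ (Finset.mem_image_of_mem _ (Finset.mem_range.2 (by omega))))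
    (hco f hf) (hco g hg)
  rw [hcomp _ (hinj _ hf) _ (hinj _ hc), hcomp _ (hinj _ hg) _ (hinj _ hc)] at h1
  exact h1

/-- the injection which fixes `0, …, k` and doubles all other numbers -/
def hk (k n : ℕ) : ℕ := if n ≤ k then n else 2 * n

theorem hk_le {k n : ℕ} (h : n ≤ k) : hk k n = n := if_pos h

theorem hk_gt {k n : ℕ} (h : k < n) : hk k n = 2 * n := if_neg (by omega)

theorem hk_inj (k : ℕ) : Function.Injective (hk k) := by
  intro a b hab
  by_cases ha : a ≤ k <;> by_cases hb : b ≤ k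
  · rwa [hk_le ha, hk_le hb] at hab
  · rw [hk_le ha, hk_gt (by omega)] at hab; omega
  · rw [hk_le hb, hk_gt (by omega)] at hab; omega
  · rw [hk_gt (by omega), hk_gt (by omega)] at hab; omega

theorem hk_co (k l : ℕ) : (Set.range (hk k) ∪ Set.range (hk l))ᶜ.Infinite := by
  have hsub : Set.range (fun i => 2 * (i + k + l) + 1) ⊆ (Set.range (hk k) ∪ Set.range (hk l))ᶜ := by
    rintro _ ⟨i, rfl⟩ hz
    rcases hz with ⟨n, hn⟩ | ⟨n, hn⟩
    · change hk k n = 2 * (i + k + l) + 1 at hn
      by_cases h : n ≤ k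
      · rw [hk_le h] at hn; omega
      · rw [hk_gt (by omega)] at hn; omega
    · change hk l n = 2 * (i + k + l) + 1 at hn
      by_cases h : n ≤ l
      · rw [hk_le h] at hn; omega
      · rw [hk_gt (by omega)] at hn; omega
  refine (Set.infinite_range_of_injective ?_).mono hsub
  intro a b h
  simp only at h
  omega

theorem hk_co' (k : ℕ) : (Set.range (hk k))ᶜ.Infinite := by
  have := hk_co k k
  rwa [Set.union_self] at this

/-- **Finite supports.** -/
theorem supp_all (hinj : ∀ f : ℕ → ℕ, Function.Injective f → f ∈ C)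
    (hCcomp : ∀ f ∈ C, ∀ g ∈ C, f ∘ g ∈ C)
    (hcomp : ∀ f ∈ C, ∀ g ∈ C, θ (f ∘ g) = θ f ∘ θ g) (hid : θ id = id)
    (hθ : ∀ f ∈ C, ∀ g ∈ C, θ f = θ g → f = g)
    (hclosed : ∀ F : Y → Y, (∀ W : Finset Y, ∃ f ∈ C, ∀ y ∈ W, F y = θ f y) →
      ∃ f ∈ C, θ f = F) (y : Y) :
    ∃ t : Finset ℕ, ∀ f g : ℕ → ℕ, Function.Injective f → Function.Injective g →
      (∀ x ∈ t, f x = g x) → θ f y = θ g y := by
  classical
  choose m hm using ddagger hinj hcomp (θ := θ)
  have hconst : ∀ y k l, m y ≤ k → m y ≤ l → θ (hk k) y = θ (hk l) y := by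
    intro y k l h1 h2
    refine hm y _ _ (hk_inj k) (hk_inj l) (fun n hn => ?_) (hk_co k l)
    rw [hk_le (by omega), hk_le (by omega)]
  obtain ⟨f, hfC, hf⟩ := hclosed (fun y => θ (hk (m y)) y) (by
    intro W
    refine ⟨hk (W.sup m), hinj _ (hk_inj _), fun y hy => ?_⟩
    exact hconst y _ _ (le_refl _) (Finset.le_sup (f := m) hy))
  have hstar : ∀ (c : ℕ → ℕ), Function.Injective c → (Set.range c)ᶜ.Infinite → ∀ z,
      θ f (θ c z) = θ c z := by
    intro c hc hcI z
    obtain ⟨t, ht⟩ := supp_star hinj hcomp hc hcI z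
    have h1 := ht (hk (max (m (θ c z)) (t.sup id))) id (hk_inj _) Function.injective_id (by
      intro x hx
      rw [hk_le]
      · rfl
      · exact le_max_of_le_right (Finset.le_sup (f := id) hx))
    rw [hid] at h1
    rw [hf]
    change θ (hk (m (θ c z))) (θ c z) = θ c z
    rw [hconst _ _ (max (m (θ c z)) (t.sup id)) (le_refl _) (le_max_left _ _)]
    exact h1
  have hfid : f = id := by
    funext n
    have h1 : θ (f ∘ hk n) = θ (hk n) := by
      rw [hcomp _ hfC _ (hinj _ (hk_inj n))]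
      funext z
      exact hstar _ (hk_inj n) (hk_co' n) z
    have h2 := hθ _ (hCcomp _ hfC _ (hinj _ (hk_inj n))) _ (hinj _ (hk_inj n)) h1
    have h3 := congrFun h2 n
    change f (hk n n) = hk n n at h3
    rw [hk_le (le_refl n)] at h3
    exact h3
  have hy : θ (hk (m y)) y = y := by
    have h1 : θ f y = θ (hk (m y)) y := congrFun hf y
    rw [← h1, hfid, hid]
    rfl
  obtain ⟨t, ht⟩ := supp_star hinj hcomp (hk_inj (m y)) (hk_co' (m y)) y
  rw [hy] at ht
  exact ⟨t, ht⟩

end

end Pool.Agent.X193.AHC
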